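import Pool.Agent.J4H5.RZ.Stm2

set_option autoImplicit false

/-! Project RZ, part ABSL: many windows with a zero. -/

namespace Pool.Agent.J4H55.RZ

open MeasureTheory Filter Topology Set intervalIntegral

/-- integrals over moving windows by primitives -/
theorem win_prim {f : ℝ → ℝ} (hf : Continuous f) (T v h : ℝ) :
    ∫ u in v..(v + h), f u = (∫ u in T..(v + h), f u) - ∫ u in T..v, f u := by
  rw [integral_interval_sub_left (hf.intervalIntegrable _ _) (hf.intervalIntegrable _ _)]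

theorem prim_cont {f : ℝ → ℝ} (hf : Continuous f) (T : ℝ) : Continuous (fun x => ∫ u in T..x, f u) :=
  continuous_primitive (fun a b => hf.intervalIntegrable a b) T

theorem win_cont {f : ℝ → ℝ} (hf : Continuous f) (h : ℝ) : Continuous (fun v => ∫ u in v..(v + h), f u) := by
  have e : (fun v => ∫ u in v..(v + h), f u) = fun v => (∫ u in (0 : ℝ)..(v + h), f u) - ∫ u in (0 : ℝ)..v, f u := by
    funext v; exact win_prim hf 0 v h
  rw [e]
  exact ((prim_cont hf 0).comp (continuous_id.add continuous_const)).sub (prim_cont hf 0)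

/-- the average over the windows -/
theorem win_avg {f : ℝ → ℝ} (hf : Continuous f) {T h : ℝ} :
    ∫ v in T..(2 * T), (∫ u in v..(v + h), f u) =
      (∫ v in (2 * T)..(2 * T + h), ∫ u in T..v, f u) - ∫ v in T..(T + h), ∫ u in T..v, f u := by
  obtain ⟨F, hF⟩ : ∃ F : ℝ → ℝ, F = fun x => ∫ u in T..x, f u := ⟨_, rfl⟩
  have hFc : Continuous F := by rw [hF]; exact prim_cont hf T
  have e1 : ∀ v, (∫ u in v..(v + h), f u) = F (v + h) - F v := by
    intro v
    rw [hF]
    exact win_prim hf T v h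
  simp_rw [e1]
  have hFh : Continuous (fun v => F (v + h)) := hFc.comp (continuous_id.add continuous_const)
  rw [intervalIntegral.integral_sub (hFh.intervalIntegrable _ _) (hFc.intervalIntegrable _ _)]
  have e2 : ∫ v in T..(2 * T), F (v + h) = ∫ v in (T + h)..(2 * T + h), F v := intervalIntegral.integral_comp_add_right F h
  rw [e2]
  have e3 : (∫ v in (T + h)..(2 * T + h), F v) - ∫ v in T..(2 * T), F v =
      (∫ v in (2 * T)..(2 * T + h), F v) - ∫ v in T..(T + h), F v := by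
    have a1 := integral_add_adjacent_intervals (hFc.intervalIntegrable (μ := volume) T (T + h)) (hFc.intervalIntegrable (μ := volume) (T + h) (2 * T + h))
    have a2 := integral_add_adjacent_intervals (hFc.intervalIntegrable (μ := volume) T (2 * T)) (hFc.intervalIntegrable (μ := volume) (2 * T) (2 * T + h))
    linarith
  rw [e3]
  rw [hF]

theorem prim_mono {f : ℝ → ℝ} (hf : Continuous f) (h0 : ∀ x, 0 ≤ f x) {T x y : ℝ} (hxy : x ≤ y) :
    ∫ u in T..x, f u ≤ ∫ u in T..y, f u := by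
  have h1 := integral_interval_sub_left (hf.intervalIntegrable (μ := volume) T y) (hf.intervalIntegrable (μ := volume) T x)
  have h2 : 0 ≤ ∫ u in x..y, f u := intervalIntegral.integral_nonneg hxy (fun u _ => h0 u)
  linarith

/-- upper bound for the average over the windows -/
theorem win_le {f : ℝ → ℝ} (hf : Continuous f) (h0 : ∀ x, 0 ≤ f x) {T h : ℝ} (hh : 0 ≤ h) (hhT : h ≤ T) :
    ∫ v in T..(2 * T), (∫ u in v..(v + h), f u) ≤ h * ∫ u in T..(3 * T), f u := by
  rw [win_avg hf]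
  have h1 : ∫ v in (2 * T)..(2 * T + h), (∫ u in T..v, f u) ≤ ∫ v in (2 * T)..(2 * T + h), (∫ u in T..(3 * T), f u) := by
    apply integral_mono_on (by linarith) ((prim_cont hf T).intervalIntegrable _ _) (continuous_const.intervalIntegrable _ _)
    intro v hv
    exact prim_mono hf h0 (by linarith [hv.2])
  rw [intervalIntegral.integral_const, smul_eq_mul, add_sub_cancel_left] at h1
  have h2 : 0 ≤ ∫ v in T..(T + h), (∫ u in T..v, f u) := by
    apply intervalIntegral.integral_nonneg (by linarith)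
    intro v hv
    exact intervalIntegral.integral_nonneg hv.1 (fun u _ => h0 u)
  linarith

/-- lower bound for the average over the windows -/
theorem win_ge {f : ℝ → ℝ} (hf : Continuous f) (h0 : ∀ x, 0 ≤ f x) {T h : ℝ} (hh : 0 ≤ h) :
    h * (∫ u in T..(2 * T), f u) - h * ∫ u in T..(T + h), f u ≤ ∫ v in T..(2 * T), (∫ u in v..(v + h), f u) := by
  rw [win_avg hf]
  have h1 : ∫ v in (2 * T)..(2 * T + h), (∫ u in T..(2 * T), f u) ≤ ∫ v in (2 * T)..(2 * T + h), (∫ u in T..v, f u) := by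
    apply integral_mono_on (by linarith) (continuous_const.intervalIntegrable _ _) ((prim_cont hf T).intervalIntegrable _ _)
    intro v hv
    exact prim_mono hf h0 hv.1
  rw [intervalIntegral.integral_const, smul_eq_mul, add_sub_cancel_left] at h1
  have h2 : ∫ v in T..(T + h), (∫ u in T..v, f u) ≤ ∫ v in T..(T + h), (∫ u in T..(T + h), f u) := by
    apply integral_mono_on (by linarith) ((prim_cont hf T).intervalIntegrable _ _) (continuous_const.intervalIntegrable _ _)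
    intro v hv
    exact prim_mono hf h0 hv.2
  rw [intervalIntegral.integral_const, smul_eq_mul, add_sub_cancel_left] at h2
  linarith

/-- a window without a zero -/
theorem no_zero {R : ℝ → ℝ} (hR : Continuous R) {v h : ℝ} (hh : 0 ≤ h) (hz : ∀ u ∈ Icc v (v + h), R u ≠ 0) :
    ∫ u in v..(v + h), |R u| = |∫ u in v..(v + h), R u| := by
  have hvh : v ≤ v + h := by linarith
  have hv : R v ≠ 0 := hz v ⟨le_rfl, hvh⟩
  rcases lt_or_gt_of_ne hv with h1 | h1
  · have h2 : ∀ u ∈ Icc v (v + h), R u ≤ 0 := by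
      intro u hu
      by_contra h3
      push Not at h3
      obtain ⟨x, hx, hx0⟩ := intermediate_value_Icc hu.1 hR.continuousOn (show (0 : ℝ) ∈ Icc (R v) (R u) from ⟨h1.le, h3.le⟩)
      exact hz x ⟨hx.1, hx.2.trans hu.2⟩ hx0
    have e1 : ∫ u in v..(v + h), |R u| = -∫ u in v..(v + h), R u := by
      rw [← intervalIntegral.integral_neg]
      apply integral_congr
      intro u hu
      rw [uIcc_of_le hvh] at hu
      exact abs_of_nonpos (h2 u hu)
    have h3 : 0 ≤ ∫ u in v..(v + h), |R u| := intervalIntegral.integral_nonneg hvh (fun u _ => abs_nonneg _)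
    rw [e1] at h3 ⊢
    rw [abs_of_nonpos (by linarith)]
  · have h2 : ∀ u ∈ Icc v (v + h), 0 ≤ R u := by
      intro u hu
      by_contra h3
      push Not at h3
      obtain ⟨x, hx, hx0⟩ := intermediate_value_Icc' hu.1 hR.continuousOn (show (0 : ℝ) ∈ Icc (R u) (R v) from ⟨h3.le, h1.le⟩)
      exact hz x ⟨hx.1, hx.2.trans hu.2⟩ hx0
    have e1 : ∫ u in v..(v + h), |R u| = ∫ u in v..(v + h), R u := by
      apply integral_congr
      intro u hu
      rw [uIcc_of_le hvh] at hu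
      exact abs_of_nonneg (h2 u hu)
    have h3 : 0 ≤ ∫ u in v..(v + h), |R u| := intervalIntegral.integral_nonneg hvh (fun u _ => abs_nonneg _)
    rw [e1] at h3 ⊢
    rw [abs_of_nonneg h3]

theorem amgm (x l : ℝ) (hl : 0 < l) : |x| ≤ l / 2 + x ^ 2 / (2 * l) := by
  have h : 0 ≤ (|x| - l) ^ 2 := sq_nonneg _
  have h2 : |x| ^ 2 = x ^ 2 := sq_abs x
  have e : l / 2 + x ^ 2 / (2 * l) = (l ^ 2 + x ^ 2) / (2 * l) := by field_simp
  rw [e, le_div_iff₀ (by positivity)]
  nlinarith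

/-- the zeros are counted by the windows which contain them -/
theorem core {R : ℝ → ℝ} (hR : Continuous R) {T h l : ℝ} (hT : 0 < T) (hh : 0 < h) (hhT : h ≤ T) (hl : 0 < l)
    (Z : Finset ℝ) (hZ : ∀ x, T ≤ x → x ≤ 3 * T → R x = 0 → x ∈ Z) :
    ∫ v in T..(2 * T), (∫ u in v..(v + h), |R u|) ≤ (∫ v in T..(2 * T), |∫ u in v..(v + h), R u|) + h * l / 2 * (Z.card * h) +
      h / (2 * l) * ∫ u in T..(3 * T), (R u) ^ 2 := by
  classical
  have hT2 : T ≤ 2 * T := by linarith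
  have hRa : Continuous (fun u => |R u|) := hR.abs
  have hRs : Continuous (fun u => (R u) ^ 2) := hR.pow 2
  -- the indicator
  obtain ⟨g, hg⟩ : ∃ g : ℝ → ℝ, g = fun v => ∑ z ∈ Z, (Icc (z - h) z).indicator (fun _ => (1 : ℝ)) v := ⟨_, rfl⟩
  have hg0 : ∀ v, 0 ≤ g v := by
    intro v
    rw [hg]
    exact Finset.sum_nonneg (fun z _ => indicator_nonneg (fun _ _ => zero_le_one) v)
  have hgi : ∀ z : ℝ, IntervalIntegrable ((Icc (z - h) z).indicator (fun _ => (1 : ℝ))) volume T (2 * T) := by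
    intro z
    rw [intervalIntegrable_iff]
    exact ((continuous_const (y := (1 : ℝ))).integrableOn_uIoc).indicator measurableSet_Icc
  have hgI : IntervalIntegrable g volume T (2 * T) := by
    rw [hg, intervalIntegrable_iff]
    exact integrable_finsetSum Z (fun z _ => (intervalIntegrable_iff.1 (hgi z)))
  have hgle : ∫ v in T..(2 * T), g v ≤ Z.card * h := by
    rw [hg, intervalIntegral.integral_finsetSum (fun z _ => hgi z), ← nsmul_eq_mul]
    apply Finset.sum_le_card_nsmul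
    intro z _
    rw [intervalIntegral.integral_of_le hT2]
    calc ∫ v in Ioc T (2 * T), (Icc (z - h) z).indicator (fun _ => (1 : ℝ)) v
        = ∫ v in Ioc T (2 * T) ∩ Icc (z - h) z, (1 : ℝ) := by
          rw [setIntegral_indicator measurableSet_Icc]
      _ ≤ h := by
          rw [setIntegral_const, smul_eq_mul, mul_one]
          have h1 : volume.real (Ioc T (2 * T) ∩ Icc (z - h) z) ≤ volume.real (Icc (z - h) z) :=
            measureReal_mono inter_subset_right (by simp)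
          rw [Real.volume_real_Icc_of_le (by linarith)] at h1
          linarith
  -- pointwise
  have hpt : ∀ v ∈ Icc T (2 * T), (∫ u in v..(v + h), |R u|) ≤ |∫ u in v..(v + h), R u| + h * l / 2 * g v +
      1 / (2 * l) * ∫ u in v..(v + h), (R u) ^ 2 := by
    intro v hv
    have hvh : v ≤ v + h := by linarith
    have hG : 0 ≤ ∫ u in v..(v + h), (R u) ^ 2 := intervalIntegral.integral_nonneg hvh (fun u _ => sq_nonneg _)
    have hG' : 0 ≤ 1 / (2 * l) * ∫ u in v..(v + h), (R u) ^ 2 := mul_nonneg (by positivity) hG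
    have hgv : 0 ≤ h * l / 2 * g v := mul_nonneg (by positivity) (hg0 v)
    by_cases hz : ∀ u ∈ Icc v (v + h), R u ≠ 0
    · rw [no_zero hR hh.le hz]
      linarith
    · push Not at hz
      obtain ⟨z, hz1, hz2⟩ := hz
      have hzZ : z ∈ Z := hZ z (hv.1.trans hz1.1) (by linarith [hz1.2, hv.2]) hz2
      have hgv1 : 1 ≤ g v := by
        rw [hg]
        have h1 := Finset.single_le_sum (f := fun z => (Icc (z - h) z).indicator (fun _ => (1 : ℝ)) v)
          (fun z _ => indicator_nonneg (fun _ _ => zero_le_one) v) hzZ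
        have h2 : (Icc (z - h) z).indicator (fun _ => (1 : ℝ)) v = 1 :=
          indicator_of_mem (by constructor <;> linarith [hz1.1, hz1.2]) _
        simp only [h2] at h1
        exact h1
      have h3 : (∫ u in v..(v + h), |R u|) ≤ ∫ u in v..(v + h), (l / 2 + (R u) ^ 2 / (2 * l)) := by
        apply integral_mono_on hvh (hRa.intervalIntegrable _ _)
        · exact (continuous_const.add (hRs.div_const _)).intervalIntegrable _ _
        · intro u _
          exact amgm (R u) l hl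
      rw [intervalIntegral.integral_add (continuous_const.intervalIntegrable _ _) ((hRs.div_const _).intervalIntegrable _ _),
        intervalIntegral.integral_const, intervalIntegral.integral_div, smul_eq_mul, add_sub_cancel_left] at h3
      have h4 : h * l / 2 * 1 ≤ h * l / 2 * g v := mul_le_mul_of_nonneg_left hgv1 (by positivity)
      have h5 : 0 ≤ |∫ u in v..(v + h), R u| := abs_nonneg _
      have e : 1 / (2 * l) * ∫ u in v..(v + h), (R u) ^ 2 = (∫ u in v..(v + h), (R u) ^ 2) / (2 * l) := by ring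
      rw [e]
      linarith
  have hA : Continuous (fun v => |∫ u in v..(v + h), R u|) := (win_cont hR h).abs
  have hB : Continuous (fun v => ∫ u in v..(v + h), |R u|) := win_cont hRa h
  have hGc : Continuous (fun v => ∫ u in v..(v + h), (R u) ^ 2) := win_cont hRs h
  have h6 := integral_mono_on hT2 (hB.intervalIntegrable _ _)
    (((hA.intervalIntegrable _ _).add (hgI.const_mul (h * l / 2))).add ((hGc.intervalIntegrable _ _).const_mul (1 / (2 * l)))) hpt
  rw [intervalIntegral.integral_add ((hA.intervalIntegrable _ _).add (hgI.const_mul (h * l / 2)))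
      ((hGc.intervalIntegrable _ _).const_mul (1 / (2 * l))),
    intervalIntegral.integral_add (hA.intervalIntegrable _ _) (hgI.const_mul (h * l / 2)),
    intervalIntegral.integral_const_mul, intervalIntegral.integral_const_mul] at h6
  have h7 := win_le hRs (fun x => sq_nonneg (R x)) hh.le hhT
  have h8 : 1 / (2 * l) * ∫ v in T..(2 * T), (∫ u in v..(v + h), (R u) ^ 2) ≤ 1 / (2 * l) * (h * ∫ u in T..(3 * T), (R u) ^ 2) :=
    mul_le_mul_of_nonneg_left h7 (by positivity)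
  have h9 : h * l / 2 * ∫ v in T..(2 * T), g v ≤ h * l / 2 * (Z.card * h) := mul_le_mul_of_nonneg_left hgle (by positivity)
  have e : 1 / (2 * l) * (h * ∫ u in T..(3 * T), (R u) ^ 2) = h / (2 * l) * ∫ u in T..(3 * T), (R u) ^ 2 := by ring
  rw [e] at h8
  linarith

theorem num {R : ℝ → ℝ} (hR : Continuous R) {c C l x K c1 K2 : ℝ} (hc : 0 < c) (hC : 0 < C) (hK : 0 < K)
    (hKc : K ^ 2 = 2 * C / c) (hc1 : c1 = c / (2 * K)) (hK2 : K2 = 2 * (1 + C) / c1) (hl : 1 ≤ l) (hx : 1 ≤ x)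
    (hh : l ^ 12 ≤ x ^ 4) (h1 : c / x ^ 2 ≤ ∫ v in (x ^ 4)..(2 * x ^ 4), (R v) ^ 2)
    (h2 : ∫ v in (x ^ 4)..(3 * x ^ 4), (R v) ^ 4 ≤ C * l ^ 10 / x ^ 8)
    (h3 : ∫ v in (x ^ 4)..(2 * x ^ 4), (∫ u in v..(v + l ^ 12), R u) ^ 2 ≤ C * l ^ 12 / x ^ 2)
    (m1 : 4 * (1 + C) ≤ c1 * l) (m2 : 8 * (1 + C) * l ^ 17 ≤ c1 * x ^ 3) (m3 : 2 * (1 + C) ≤ c1 ^ 2 * l)
    (Z : Finset ℝ) (hZ : ∀ y, x ^ 4 ≤ y → y ≤ 3 * x ^ 4 → R y = 0 → y ∈ Z) : x ^ 4 / l ^ 28 ≤ (Z.card : ℝ) := by
  have hx0 : 0 < x := by linarith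
  have hl0 : 0 < l := by linarith
  have hc10 : 0 < c1 := by rw [hc1]; positivity
  have hK20 : 0 < K2 := by rw [hK2]; positivity
  have hT0 : 0 < x ^ 4 := by positivity
  have hTT : x ^ 4 ≤ 2 * x ^ 4 := by linarith
  have hT3 : x ^ 4 ≤ 3 * x ^ 4 := by linarith
  have hR2 : Continuous (fun v => (R v) ^ 2) := hR.pow 2
  have hR4 : Continuous (fun v => (R v) ^ 4) := hR.pow 4
  have hRa : Continuous (fun v => |R v|) := hR.abs
  have hA : Continuous (fun v => ∫ u in v..(v + l ^ 12), R u) := win_cont hR _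
  have hA2 : Continuous (fun v => (∫ u in v..(v + l ^ 12), R u) ^ 2) := hA.pow 2
  have hR4x : Continuous (fun v => (R v) ^ 4 * x ^ 6) := hR4.mul continuous_const
  -- (a)
  have ha : ∫ v in (x ^ 4)..(2 * x ^ 4), |∫ u in v..(v + l ^ 12), R u| ≤ (1 + C) / 2 * (l ^ 6 * x) := by
    have q1 : ∫ v in (x ^ 4)..(2 * x ^ 4), |∫ u in v..(v + l ^ 12), R u| ≤
        ∫ v in (x ^ 4)..(2 * x ^ 4), ((l ^ 6 / x ^ 3) / 2 + (∫ u in v..(v + l ^ 12), R u) ^ 2 / (2 * (l ^ 6 / x ^ 3))) := by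
      apply integral_mono_on hTT (hA.abs.intervalIntegrable _ _)
      · exact (continuous_const.add (hA2.div_const _)).intervalIntegrable _ _
      · intro v _
        exact amgm _ _ (by positivity)
    rw [intervalIntegral.integral_add (continuous_const.intervalIntegrable _ _) ((hA2.div_const _).intervalIntegrable _ _),
      intervalIntegral.integral_const, intervalIntegral.integral_div, smul_eq_mul] at q1
    have q2 : (∫ v in (x ^ 4)..(2 * x ^ 4), (∫ u in v..(v + l ^ 12), R u) ^ 2) / (2 * (l ^ 6 / x ^ 3)) ≤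
        C * l ^ 12 / x ^ 2 / (2 * (l ^ 6 / x ^ 3)) := div_le_div_of_nonneg_right h3 (by positivity)
    have e1 : (2 * x ^ 4 - x ^ 4) * (l ^ 6 / x ^ 3 / 2) + C * l ^ 12 / x ^ 2 / (2 * (l ^ 6 / x ^ 3)) =
        (1 + C) / 2 * (l ^ 6 * x) := by
      field_simp
      ring
    linarith
  -- (b)
  have hb : ∫ v in (x ^ 4)..(3 * x ^ 4), (R v) ^ 2 ≤ (1 + C) * (l ^ 5 / x ^ 2) := by
    have q1 : ∫ v in (x ^ 4)..(3 * x ^ 4), (R v) ^ 2 ≤
        ∫ v in (x ^ 4)..(3 * x ^ 4), ((l ^ 5 / x ^ 6) / 2 + (R v) ^ 4 / (2 * (l ^ 5 / x ^ 6))) := by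
      apply integral_mono_on hT3 (hR2.intervalIntegrable _ _)
      · exact (continuous_const.add (hR4.div_const _)).intervalIntegrable _ _
      · intro v _
        have h := amgm ((R v) ^ 2) (l ^ 5 / x ^ 6) (by positivity)
        rw [abs_of_nonneg (sq_nonneg _), ← pow_mul] at h
        exact h
    rw [intervalIntegral.integral_add (continuous_const.intervalIntegrable _ _) ((hR4.div_const _).intervalIntegrable _ _),
      intervalIntegral.integral_const, intervalIntegral.integral_div, smul_eq_mul] at q1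
    have q2 : (∫ v in (x ^ 4)..(3 * x ^ 4), (R v) ^ 4) / (2 * (l ^ 5 / x ^ 6)) ≤ C * l ^ 10 / x ^ 8 / (2 * (l ^ 5 / x ^ 6)) :=
      div_le_div_of_nonneg_right h2 (by positivity)
    have e1 : (3 * x ^ 4 - x ^ 4) * (l ^ 5 / x ^ 6 / 2) + C * l ^ 10 / x ^ 8 / (2 * (l ^ 5 / x ^ 6)) =
        (1 + C / 2) * (l ^ 5 / x ^ 2) := by
      field_simp
      ring
    have e2 : (1 + C / 2) * (l ^ 5 / x ^ 2) ≤ (1 + C) * (l ^ 5 / x ^ 2) := mul_le_mul_of_nonneg_right (by linarith) (by positivity)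
    linarith
  -- (c)
  have hcc : c1 * (x / l ^ 5) ≤ ∫ v in (x ^ 4)..(2 * x ^ 4), |R v| := by
    obtain ⟨s, hs⟩ : ∃ s, s = K * l ^ 5 / x ^ 3 := ⟨_, rfl⟩
    have hs0 : 0 < s := by rw [hs]; positivity
    have hsR : Continuous (fun v => s * |R v|) := continuous_const.mul hRa
    have q1 : ∫ v in (x ^ 4)..(2 * x ^ 4), (R v) ^ 2 ≤ ∫ v in (x ^ 4)..(2 * x ^ 4), (s * |R v| + (R v) ^ 4 / s ^ 2) := by
      apply integral_mono_on hTT (hR2.intervalIntegrable _ _)
      · exact (hsR.add (hR4.div_const _)).intervalIntegrable _ _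
      · intro v _
        have e3 : (R v) ^ 2 = |R v| ^ 2 := (sq_abs _).symm
        have e4 : (R v) ^ 4 = |R v| ^ 4 := by rw [show (4 : ℕ) = 2 * 2 by norm_num, pow_mul, pow_mul, sq_abs]
        rw [e3, e4]
        have hr := abs_nonneg (R v)
        obtain ⟨r, hrd⟩ : ∃ r, r = |R v| := ⟨_, rfl⟩
        rw [← hrd] at hr ⊢
        rcases le_total r s with h | h
        · have : r ^ 2 ≤ s * r := by nlinarith
          have : 0 ≤ r ^ 4 / s ^ 2 := by positivity
          linarith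
        · have h5 : r ^ 2 ≤ r ^ 4 / s ^ 2 := by
            rw [le_div_iff₀ (by positivity)]
            have h6 : s ^ 2 ≤ r ^ 2 := pow_le_pow_left₀ hs0.le h 2
            calc r ^ 2 * s ^ 2 ≤ r ^ 2 * r ^ 2 := mul_le_mul_of_nonneg_left h6 (by positivity)
              _ = r ^ 4 := by ring
          have : 0 ≤ s * r := by positivity
          linarith
    rw [intervalIntegral.integral_add (hsR.intervalIntegrable _ _) ((hR4.div_const _).intervalIntegrable _ _),
      intervalIntegral.integral_const_mul, intervalIntegral.integral_div] at q1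
    have q3 : ∫ v in (x ^ 4)..(2 * x ^ 4), (R v) ^ 4 ≤ C * l ^ 10 / x ^ 8 :=
      (prim_mono hR4 (fun y => by positivity) (T := x ^ 4) (by linarith)).trans h2
    have q2 : (∫ v in (x ^ 4)..(2 * x ^ 4), (R v) ^ 4) / s ^ 2 ≤ C * l ^ 10 / x ^ 8 / s ^ 2 :=
      div_le_div_of_nonneg_right q3 (by positivity)
    have e1 : C * l ^ 10 / x ^ 8 / s ^ 2 = c / x ^ 2 / 2 := by
      have e : s ^ 2 = K ^ 2 * l ^ 10 / x ^ 6 := by rw [hs]; ring
      rw [e, hKc]
      field_simp
    have q4 : c / x ^ 2 / 2 ≤ s * ∫ v in (x ^ 4)..(2 * x ^ 4), |R v| := by linarith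
    have e5 : c / x ^ 2 / 2 = s * (c1 * (x / l ^ 5)) := by
      rw [hs, hc1]
      field_simp
    rw [e5] at q4
    exact le_of_mul_le_mul_left q4 hs0
  -- (d)
  have hd : ∫ v in (x ^ 4)..(x ^ 4 + l ^ 12), |R v| ≤ (1 + C) * (l ^ 12 / x ^ 2) := by
    have hth : x ^ 4 ≤ x ^ 4 + l ^ 12 := by have : 0 < l ^ 12 := by positivity
                                            linarith
    have q1 : ∫ v in (x ^ 4)..(x ^ 4 + l ^ 12), |R v| ≤ ∫ v in (x ^ 4)..(x ^ 4 + l ^ 12), (1 / x ^ 2 + (R v) ^ 4 * x ^ 6) := by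
      apply integral_mono_on hth (hRa.intervalIntegrable _ _)
      · exact (continuous_const.add hR4x).intervalIntegrable _ _
      · intro v _
        have e4 : (R v) ^ 4 = |R v| ^ 4 := by rw [show (4 : ℕ) = 2 * 2 by norm_num, pow_mul, pow_mul, sq_abs]
        rw [e4]
        have hr := abs_nonneg (R v)
        obtain ⟨r, hrd⟩ : ∃ r, r = |R v| := ⟨_, rfl⟩
        rw [← hrd] at hr ⊢
        rcases le_total r (1 / x ^ 2) with h | h
        · have : 0 ≤ r ^ 4 * x ^ 6 := by positivity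
          linarith
        · have h5 : r ≤ r ^ 4 * x ^ 6 := by
            have h6 : 1 ≤ r * x ^ 2 := by
              rw [div_le_iff₀ (by positivity)] at h
              exact h
            have h7 : 1 ≤ (r * x ^ 2) ^ 3 := one_le_pow₀ h6
            calc r ≤ r * (r * x ^ 2) ^ 3 := le_mul_of_one_le_right hr h7
              _ = r ^ 4 * x ^ 6 := by ring
          have : 0 ≤ 1 / x ^ 2 := by positivity
          linarith
    rw [intervalIntegral.integral_add (continuous_const.intervalIntegrable _ _) (hR4x.intervalIntegrable _ _),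
      intervalIntegral.integral_const, intervalIntegral.integral_mul_const, smul_eq_mul, add_sub_cancel_left] at q1
    have q3 : ∫ v in (x ^ 4)..(x ^ 4 + l ^ 12), (R v) ^ 4 ≤ C * l ^ 10 / x ^ 8 :=
      (prim_mono hR4 (fun y => by positivity) (T := x ^ 4) (by linarith)).trans h2
    have q2 := mul_le_mul_of_nonneg_right q3 (show 0 ≤ x ^ 6 by positivity)
    have e1 : C * l ^ 10 / x ^ 8 * x ^ 6 = C * (l ^ 10 / x ^ 2) := by field_simp
    have e2 : l ^ 10 / x ^ 2 ≤ l ^ 12 / x ^ 2 := div_le_div_of_nonneg_right (pow_le_pow_right₀ hl (by norm_num)) (by positivity)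
    have e3 : C * (l ^ 10 / x ^ 2) ≤ C * (l ^ 12 / x ^ 2) := mul_le_mul_of_nonneg_left e2 hC.le
    have e5 : l ^ 12 * (1 / x ^ 2) = l ^ 12 / x ^ 2 := by ring
    linarith
  -- (e), (f)
  have he := win_ge hRa (fun y => abs_nonneg (R y)) (T := x ^ 4) (h := l ^ 12) (by positivity)
  have hf := core hR (T := x ^ 4) (h := l ^ 12) (l := K2 * l ^ 10 / x ^ 3) hT0 (by positivity) hh (by positivity) Z hZ
  have h12 : 0 ≤ l ^ 12 := by positivity
  have g1 : l ^ 12 * (c1 * (x / l ^ 5)) ≤ l ^ 12 * ∫ v in (x ^ 4)..(2 * x ^ 4), |R v| := mul_le_mul_of_nonneg_left hcc h12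
  have g2 : l ^ 12 * (∫ v in (x ^ 4)..(x ^ 4 + l ^ 12), |R v|) ≤ l ^ 12 * ((1 + C) * (l ^ 12 / x ^ 2)) :=
    mul_le_mul_of_nonneg_left hd h12
  have g3 : l ^ 12 / (2 * (K2 * l ^ 10 / x ^ 3)) * (∫ v in (x ^ 4)..(3 * x ^ 4), (R v) ^ 2) ≤
      l ^ 12 / (2 * (K2 * l ^ 10 / x ^ 3)) * ((1 + C) * (l ^ 5 / x ^ 2)) := mul_le_mul_of_nonneg_left hb (by positivity)
  have e1 : l ^ 12 * (c1 * (x / l ^ 5)) = c1 * (l ^ 7 * x) := by field_simp
  have e2 : l ^ 12 * ((1 + C) * (l ^ 12 / x ^ 2)) = (1 + C) * (l ^ 24 / x ^ 2) := by ring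
  have e3 : l ^ 12 / (2 * (K2 * l ^ 10 / x ^ 3)) * ((1 + C) * (l ^ 5 / x ^ 2)) = c1 / 4 * (l ^ 7 * x) := by
    rw [hK2]
    field_simp
    ring
  have e4 : l ^ 12 * (K2 * l ^ 10 / x ^ 3) / 2 * ((Z.card : ℝ) * l ^ 12) = K2 / 2 * l ^ 34 * Z.card / x ^ 3 := by ring
  rw [e1] at g1
  rw [e2] at g2
  rw [e3] at g3
  rw [e4] at hf
  have k1 : (1 + C) / 2 * (l ^ 6 * x) ≤ c1 / 8 * (l ^ 7 * x) := by
    have : 4 * (1 + C) * (l ^ 6 * x) ≤ c1 * l * (l ^ 6 * x) := mul_le_mul_of_nonneg_right m1 (by positivity)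
    have e : c1 * l * (l ^ 6 * x) = c1 * (l ^ 7 * x) := by ring
    linarith
  have k2 : (1 + C) * (l ^ 24 / x ^ 2) ≤ c1 / 8 * (l ^ 7 * x) := by
    have h5 : 8 * (1 + C) * l ^ 17 * (l ^ 7 / x ^ 2) ≤ c1 * x ^ 3 * (l ^ 7 / x ^ 2) := mul_le_mul_of_nonneg_right m2 (by positivity)
    have e5 : 8 * (1 + C) * l ^ 17 * (l ^ 7 / x ^ 2) = 8 * ((1 + C) * (l ^ 24 / x ^ 2)) := by ring
    have e6 : c1 * x ^ 3 * (l ^ 7 / x ^ 2) = c1 * (l ^ 7 * x) := by field_simp
    linarith
  have k3 : c1 / 2 * (l ^ 7 * x) ≤ K2 / 2 * l ^ 34 * Z.card / x ^ 3 := by linarith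
  rw [le_div_iff₀ (by positivity)] at k3
  have k4 : c1 * x ^ 4 ≤ K2 * l ^ 27 * Z.card := by
    have h5 : 0 < l ^ 7 / 2 := by positivity
    apply le_of_mul_le_mul_left _ h5
    calc l ^ 7 / 2 * (c1 * x ^ 4) = c1 / 2 * (l ^ 7 * x) * x ^ 3 := by ring
      _ ≤ K2 / 2 * l ^ 34 * Z.card := k3
      _ = _ := by ring
  have k5 : K2 ≤ c1 * l := by
    rw [hK2, div_le_iff₀ hc10]
    linarith [show c1 * l * c1 = c1 ^ 2 * l by ring]
  have k6 : K2 * l ^ 27 * Z.card ≤ c1 * l * l ^ 27 * Z.card :=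
    mul_le_mul_of_nonneg_right (mul_le_mul_of_nonneg_right k5 (by positivity)) (Nat.cast_nonneg _)
  rw [div_le_iff₀ (by positivity)]
  apply le_of_mul_le_mul_left _ hc10
  calc c1 * x ^ 4 ≤ c1 * l * l ^ 27 * Z.card := k4.trans k6
    _ = c1 * (Z.card * l ^ 28) := by ring

/-- for a finite zero set -/
theorem fin_case {R : ℝ → ℝ} {T L c C K c1 K2 : ℝ} (hR : ContinuousOn R (Icc T (3 * T))) (hc : 0 < c) (hC : 0 < C) (hK : 0 < K)
    (hKc : K ^ 2 = 2 * C / c) (hc1 : c1 = c / (2 * K)) (hK2 : K2 = 2 * (1 + C) / c1) (hT : 1 ≤ T) (hL : 1 ≤ L)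
    (hh : L ^ 6 ≤ T) (m1 : 4 * (1 + C) ≤ c1 * √L) (m2 : (8 * (1 + C) / c1) ^ 4 * L ^ 34 ≤ T) (m3 : 2 * (1 + C) ≤ c1 ^ 2 * √L)
    (h1 : c * T ^ (-(1 / 2 : ℝ)) ≤ ∫ v in T..(2 * T), (R v) ^ 2)
    (h2 : ∫ v in T..(3 * T), (R v) ^ 4 ≤ C * L ^ 5 * T ^ (-(2 : ℝ)))
    (h3 : ∫ v in T..(2 * T), (∫ u in v..(v + L ^ 6), R u) ^ 2 ≤ C * L ^ 6 * T ^ (-(1 / 2 : ℝ)))
    (Z : Finset ℝ) (hZ : ∀ y, T ≤ y → y ≤ 3 * T → R y = 0 → y ∈ Z) : T / L ^ 14 ≤ (Z.card : ℝ) := by
  have hT0 : 0 < T := by linarith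
  have hL0 : 0 < L := by linarith
  have hc10 : 0 < c1 := by rw [hc1]; positivity
  obtain ⟨x, hx⟩ : ∃ x, x = T ^ (1 / 4 : ℝ) := ⟨_, rfl⟩
  obtain ⟨l, hl⟩ : ∃ l, l = √L := ⟨_, rfl⟩
  have hx1 : 1 ≤ x := by rw [hx]; exact Real.one_le_rpow hT (by norm_num)
  have hl1 : 1 ≤ l := by rw [hl]; exact Real.one_le_sqrt.2 hL
  have hx0 : 0 < x := by linarith
  have hl0 : 0 < l := by linarith
  have hxT : x ^ 4 = T := by
    rw [hx, ← Real.rpow_natCast, ← Real.rpow_mul hT0.le]
    norm_num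
  have hlL : l ^ 2 = L := by rw [hl]; exact Real.sq_sqrt hL0.le
  have hl6 : l ^ 12 = L ^ 6 := by rw [← hlL]; ring
  have eT1 : T ^ (-(1 / 2 : ℝ)) = 1 / x ^ 2 := by
    rw [Real.rpow_neg hT0.le, one_div (x ^ 2)]
    congr 1
    rw [hx, ← Real.rpow_natCast, ← Real.rpow_mul hT0.le]
    norm_num
  have eT2 : T ^ (-(2 : ℝ)) = 1 / x ^ 8 := by
    rw [Real.rpow_neg hT0.le, one_div (x ^ 8)]
    congr 1
    rw [hx, ← Real.rpow_natCast, ← Real.rpow_mul hT0.le]
    norm_num
  have hT3 : T ≤ 3 * T := by linarith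
  obtain ⟨Q, hQ⟩ : ∃ Q : ℝ → ℝ, Q = IccExtend hT3 ((Icc T (3 * T)).domRestrict R) := ⟨_, rfl⟩
  have hQc : Continuous Q := by
    rw [hQ]
    exact (continuousOn_iff_continuous_domRestrict.1 hR).Icc_extend'
  have hQR : ∀ y ∈ Icc T (3 * T), Q y = R y := by
    intro y hy
    rw [hQ, IccExtend_of_mem hT3 _ hy]
    rfl
  have hm : 8 * (1 + C) * l ^ 17 ≤ c1 * x ^ 3 := by
    have h4 : (8 * (1 + C) / c1 * l ^ 17) ^ 4 ≤ (x ^ 3) ^ 4 := by
      calc (8 * (1 + C) / c1 * l ^ 17) ^ 4 = (8 * (1 + C) / c1) ^ 4 * (l ^ 2) ^ 34 := by ring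
        _ ≤ T := by rw [hlL]; exact m2
        _ ≤ T ^ 3 := by
          have := pow_le_pow_right₀ hT (show 1 ≤ 3 by norm_num)
          simpa using this
        _ = (x ^ 3) ^ 4 := by rw [← hxT]; ring
    have h5 : 8 * (1 + C) / c1 * l ^ 17 ≤ x ^ 3 := (pow_le_pow_iff_left₀ (by positivity) (by positivity) (by norm_num)).1 h4
    have h6 := mul_le_mul_of_nonneg_left h5 hc10.le
    have e : c1 * (8 * (1 + C) / c1 * l ^ 17) = 8 * (1 + C) * l ^ 17 := by field_simp
    linarith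
  have hwin : ∀ v ∈ Icc T (2 * T), ∫ u in v..(v + L ^ 6), Q u = ∫ u in v..(v + L ^ 6), R u := by
    intro v hv
    apply integral_congr
    intro u hu
    have hL6 : 0 ≤ L ^ 6 := by positivity
    rw [uIcc_of_le (by linarith)] at hu
    exact hQR u ⟨hv.1.trans hu.1, by linarith [hu.2, hv.2]⟩
  have key := num hQc (c := c) (C := C) (l := l) (x := x) hc hC hK hKc hc1 hK2 hl1 hx1 (by rw [hl6, hxT]; exact hh)
    (by
      rw [hxT]
      have e : ∫ v in T..(2 * T), (Q v) ^ 2 = ∫ v in T..(2 * T), (R v) ^ 2 := by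
        apply integral_congr
        intro v hv
        rw [uIcc_of_le (by linarith)] at hv
        simp only
        rw [hQR v ⟨hv.1, by linarith [hv.2]⟩]
      rw [e]
      rw [eT1] at h1
      calc c / x ^ 2 = c * (1 / x ^ 2) := by ring
        _ ≤ _ := h1)
    (by
      rw [hxT]
      have e : ∫ v in T..(3 * T), (Q v) ^ 4 = ∫ v in T..(3 * T), (R v) ^ 4 := by
        apply integral_congr
        intro v hv
        rw [uIcc_of_le hT3] at hv
        simp only
        rw [hQR v hv]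
      rw [e]
      rw [eT2, ← hlL] at h2
      calc _ ≤ _ := h2
        _ = _ := by ring)
    (by
      rw [hxT, hl6]
      have e : ∫ v in T..(2 * T), (∫ u in v..(v + L ^ 6), Q u) ^ 2 = ∫ v in T..(2 * T), (∫ u in v..(v + L ^ 6), R u) ^ 2 := by
        apply integral_congr
        intro v hv
        rw [uIcc_of_le (by linarith)] at hv
        simp only
        rw [hwin v hv]
      rw [e]
      rw [eT1] at h3
      calc _ ≤ _ := h3
        _ = _ := by ring)
    (by rw [hl]; exact m1) hm (by rw [hl]; exact m3) Z (fun y hy1 hy2 hy0 => by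
      rw [hxT] at hy1 hy2
      exact hZ y hy1 hy2 (by rw [← hQR y ⟨hy1, hy2⟩]; exact hy0))
  have e : x ^ 4 / l ^ 28 = T / L ^ 14 := by
    rw [hxT, ← hlL]
    congr 1
    ring
  rw [← e]
  exact key

theorem t_ABSL : Pool.Agent.J4H5.RZ.S_ABSL := by
  intro c C hc hC
  obtain ⟨K, hKd⟩ : ∃ K, K = √(2 * C / c) := ⟨_, rfl⟩
  have hK : 0 < K := by rw [hKd]; exact Real.sqrt_pos.2 (by positivity)
  have hKc : K ^ 2 = 2 * C / c := by rw [hKd]; exact Real.sq_sqrt (by positivity)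
  obtain ⟨c1, hc1⟩ : ∃ c1, c1 = c / (2 * K) := ⟨_, rfl⟩
  have hc10 : 0 < c1 := by rw [hc1]; positivity
  have hl : Tendsto (fun T : ℝ => √(Real.log T)) atTop atTop := Real.tendsto_sqrt_atTop.comp Real.tendsto_log_atTop
  have hpow : ∀ (M : ℝ) (n : ℕ), 0 < M → ∀ᶠ T : ℝ in atTop, M * (Real.log T) ^ n ≤ T := by
    intro M n hM
    have h1 := (Real.isLittleO_pow_log_id_atTop (n := n)).def (show (0 : ℝ) < 1 / M by positivity)
    filter_upwards [h1, eventually_ge_atTop (1 : ℝ)] with T h2 h3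
    rw [Real.norm_eq_abs, Real.norm_eq_abs, id, abs_of_nonneg (pow_nonneg (Real.log_nonneg h3) _), abs_of_nonneg (by linarith : (0 : ℝ) ≤ T)] at h2
    have h4 := mul_le_mul_of_nonneg_left h2 hM.le
    have e : M * (1 / M * T) = T := by field_simp
    rwa [e] at h4
  have hev : ∀ᶠ T : ℝ in atTop, 3 ≤ T ∧ 1 ≤ Real.log T ∧ (Real.log T) ^ 6 ≤ T ∧ 4 * (1 + C) ≤ c1 * √(Real.log T) ∧
      (8 * (1 + C) / c1) ^ 4 * (Real.log T) ^ 34 ≤ T ∧ 2 * (1 + C) ≤ c1 ^ 2 * √(Real.log T) := by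
    filter_upwards [eventually_ge_atTop (3 : ℝ), Real.tendsto_log_atTop.eventually_ge_atTop 1, hpow 1 6 one_pos,
      (hl.const_mul_atTop hc10).eventually_ge_atTop (4 * (1 + C)), hpow ((8 * (1 + C) / c1) ^ 4) 34 (by positivity),
      (hl.const_mul_atTop (show 0 < c1 ^ 2 by positivity)).eventually_ge_atTop (2 * (1 + C))] with T a1 a2 a3 a4 a5 a6
    rw [one_mul] at a3
    exact ⟨a1, a2, a3, a4, a5, a6⟩
  obtain ⟨T₁, hT₁⟩ := eventually_atTop.1 hev
  refine ⟨max 3 T₁, le_max_left _ _, ?_⟩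
  intro T R hT hR h1 h2 h3
  obtain ⟨a1, a2, a3, a4, a5, a6⟩ := hT₁ T ((le_max_right _ _).trans hT)
  by_cases hfin : {y : ℝ | T ≤ y ∧ y ≤ 3 * T ∧ R y = 0}.Finite
  · refine ⟨hfin.toFinset, fun y hy => by simpa using hy, ?_⟩
    exact fin_case hR hc hC hK hKc hc1 rfl (by linarith) a2 a3 a4 a5 a6 h1 h2 h3 hfin.toFinset
      (fun y hy1 hy2 hy0 => by simpa using ⟨hy1, hy2, hy0⟩)
  · obtain ⟨S, hS1, hS2⟩ := Set.Infinite.exists_subset_card_eq hfin ⌈T / (Real.log T) ^ 14⌉₊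
    refine ⟨S, fun y hy => hS1 hy, ?_⟩
    rw [hS2]
    exact Nat.le_ceil _

end Pool.Agent.J4H55.RZ
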