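import Pool.Agent.J4H5.RZ.Stm

set_option autoImplicit false

/-! Project RZ, part R1: the mean square from below. -/

namespace Pool.Agent.J4H55.RZ

open Complex MeasureTheory Filter Topology Set
open Pool.Agent.J4H4.NG
open Pool.Agent.J4H5.RZ

/-- the coefficients of `DD`, divided by `e^{aπ²/16}` -/
noncomputable def cc (a lam : ℝ) (n : ℕ) : ℂ :=
  (amp a lam (n + 1) : ℂ) * cexp (I * ((a * Real.pi / 2 * (Real.log ((n : ℝ) + 1) - lam) : ℝ) : ℂ))

theorem cc_norm (a lam : ℝ) (n : ℕ) : ‖cc a lam n‖ = amp a lam (n + 1) := by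
  unfold cc
  rw [norm_mul, mul_comm I, Complex.norm_exp_ofReal_mul_I, mul_one, Complex.norm_real, Real.norm_eq_abs, abs_of_nonneg]
  unfold amp
  positivity

theorem cc_maj (a lam : ℝ) : Maj a lam (cc a lam) := fun n => (cc_norm a lam n).le

theorem DD_cc (a lam v : ℝ) : DD a lam v = ((Real.exp (a * Real.pi ^ 2 / 16) : ℝ) : ℂ) * DS (cc a lam) v := by
  unfold DD DS
  rw [← tsum_mul_left]
  congr 1
  funext n
  have hn : ((n : ℂ) + 1) ≠ 0 := by exact_mod_cast Nat.succ_ne_zero n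
  unfold cc amp
  rw [sub_eq_add_neg (-(2 : ℂ)), Complex.cpow_add _ _ hn, Complex.cpow_neg]
  have e1 : ((n : ℂ) + 1) ^ (2 : ℂ) = ((n : ℂ) + 1) ^ 2 := by
    exact_mod_cast Complex.cpow_natCast ((n : ℂ) + 1) 2
  rw [e1]
  push_cast
  have e2 : cexp (-(a : ℂ) * ((Real.log ((n : ℝ) + 1) : ℂ) - lam - I * (Real.pi / 4)) ^ 2) =
      cexp (((a * Real.pi ^ 2 / 16 : ℝ) : ℂ)) * (cexp ((-a * (Real.log ((n : ℝ) + 1) - lam) ^ 2 : ℝ) : ℂ) *
        cexp (I * ((a * Real.pi / 2 * (Real.log ((n : ℝ) + 1) - lam) : ℝ) : ℂ))) := by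
    rw [← Complex.exp_add, ← Complex.exp_add]
    congr 1
    push_cast
    have hI : I ^ 2 = -1 := Complex.I_sq
    linear_combination (-(a : ℂ) * Real.pi ^ 2 / 16) * hI
  push_cast at e2 ⊢
  rw [e2]
  ring

theorem DS_cont {a lam : ℝ} (hs : Summable (fun n : ℕ => amp a lam (n + 1))) : Continuous (DS (cc a lam)) := by
  unfold DS
  refine continuous_tsum (fun n => ?_) hs (fun n v => ?_)
  · have hn : ((n : ℂ) + 1) ≠ 0 := by exact_mod_cast Nat.succ_ne_zero n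
    exact continuous_const.mul ((continuous_const.mul Complex.continuous_ofReal).neg.const_cpow (Or.inl hn))
  · rw [norm_mul, cc_norm]
    have h : ‖((n : ℂ) + 1) ^ (-(I * v))‖ = 1 := by
      have e : ((n : ℂ) + 1) = (((n : ℝ) + 1 : ℝ) : ℂ) := by push_cast; rfl
      rw [e, Complex.norm_cpow_eq_rpow_re_of_pos (by positivity)]
      simp
    rw [h, mul_one]

theorem DD_cont {a lam : ℝ} (hs : Summable (fun n : ℕ => amp a lam (n + 1))) : Continuous (fun v => DD a lam v) := by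
  have e : (fun v => DD a lam v) = fun v => ((Real.exp (a * Real.pi ^ 2 / 16) : ℝ) : ℂ) * DS (cc a lam) v := by
    funext v; exact DD_cc a lam v
  rw [e]
  exact continuous_const.mul (DS_cont hs)

theorem gam_ne (v : ℝ) : gam (2 + I * v) ≠ 0 := by
  have h1 : Complex.Gammaℝ (2 + I * v) ≠ 0 := Complex.Gammaℝ_ne_zero_of_re_pos (by simp)
  have h2 : (2 + I * (v : ℂ)) ≠ 0 := by
    intro h
    have := congrArg Complex.re h
    simp at this
  have h3 : (2 + I * (v : ℂ)) - 1 ≠ 0 := by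
    intro h
    have := congrArg Complex.re h
    simp at this
    norm_num at this
  unfold gam
  exact mul_ne_zero (div_ne_zero (mul_ne_zero h2 h3) two_ne_zero) h1

/-- pointwise -/
theorem ptw {R y e x : ℝ} (h1 : y ≤ |R| + e) (hy : 0 ≤ y) (hxy : x ≤ y) (hx : 0 ≤ x) : x ^ 2 / 2 - e ^ 2 ≤ R ^ 2 := by
  have h2 : y ^ 2 ≤ (|R| + e) ^ 2 := pow_le_pow_left₀ hy h1 2
  have h3 : x ^ 2 ≤ y ^ 2 := pow_le_pow_left₀ hx hxy 2
  have h4 : |R| ^ 2 = R ^ 2 := sq_abs R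
  nlinarith [sq_nonneg (|R| - e)]

theorem lam_dif {a v V : ℝ} (hV : 0 < V) (hv : V ≤ v) : |lamv a V - lamv a v| ≤ (v - V) / (2 * V) := by
  have hv0 : 0 < v := lt_of_lt_of_le hV hv
  have h2π : 0 < 2 * Real.pi := by positivity
  unfold lamv LL
  have e : Real.log (V / (2 * Real.pi)) / 2 + 3 / (4 * a) - (Real.log (v / (2 * Real.pi)) / 2 + 3 / (4 * a)) =
      -(Real.log (v / V) / 2) := by
    rw [Real.log_div hV.ne' h2π.ne', Real.log_div hv0.ne' h2π.ne', Real.log_div hv0.ne' hV.ne']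
    ring
  rw [e, abs_neg, abs_of_nonneg (div_nonneg (Real.log_nonneg (by rw [le_div_iff₀ hV]; linarith)) (by norm_num))]
  have h1 : Real.log (v / V) ≤ v / V - 1 := Real.log_le_sub_one_of_pos (by positivity)
  have e2 : (v - V) / (2 * V) = (v / V - 1) / 2 := by field_simp
  rw [e2]
  linarith

/-- the exponentials of `lamv` -/
theorem exp_lamv {a V : ℝ} (hV : 0 < V) : Real.exp (-(lamv a V)) = Real.exp (-(3 / (4 * a))) * √(2 * Real.pi) / √V := by
  unfold lamv LL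
  have h2π : 0 < 2 * Real.pi := by positivity
  have e1 : √(2 * Real.pi) / √V = Real.exp (-(Real.log (V / (2 * Real.pi)) / 2)) := by
    rw [← Real.sqrt_div h2π.le, Real.sqrt_eq_rpow, Real.rpow_def_of_pos (by positivity), Real.log_div h2π.ne' hV.ne',
      Real.log_div hV.ne' h2π.ne']
    congr 1
    ring
  rw [mul_div_assoc, e1, ← Real.exp_add]
  congr 1
  ring

theorem lamv_ge {a s V : ℝ} (ha : 0 < a) (hs : 2 ≤ Real.log s) (hs0 : 0 < s) (hV : s ^ 6 ≤ V) : 1 ≤ lamv a V := by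
  have hV0 : 0 < V := lt_of_lt_of_le (by positivity) hV
  have h2π : 0 < 2 * Real.pi := by positivity
  have h1 : 6 * Real.log s ≤ Real.log V := by
    have h := Real.log_le_log (by positivity) hV
    rw [Real.log_pow] at h
    exact_mod_cast h
  have h2 : Real.log (2 * Real.pi) ≤ 6 := by
    have := Real.log_le_sub_one_of_pos h2π
    have := Real.pi_lt_d2
    linarith
  have h3 : 0 ≤ 3 / (4 * a) := by positivity
  unfold lamv LL
  rw [Real.log_div hV0.ne' h2π.ne']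
  linarith

theorem lamv_le {a s V : ℝ} (hs0 : 0 < s) (hV0 : 0 < V) (hV : V ≤ 2 * s ^ 6) : 1 + lamv a V ≤ 2 + 3 / (4 * a) + 3 * Real.log s := by
  have h2π : 0 < 2 * Real.pi := by positivity
  have h1 : Real.log V ≤ 1 + 6 * Real.log s := by
    have h := Real.log_le_log hV0 hV
    rw [Real.log_mul (by norm_num) (by positivity), Real.log_pow] at h
    have h2 : Real.log 2 ≤ 1 := by
      have := Real.log_le_sub_one_of_pos (show (0 : ℝ) < 2 by norm_num)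
      linarith
    push_cast at h
    linarith
  have h2 : 0 ≤ Real.log (2 * Real.pi) := Real.log_nonneg (by have := Real.pi_gt_three; linarith)
  unfold lamv LL
  rw [Real.log_div hV0.ne' h2π.ne']
  linarith

/-- one short interval -/
theorem piece {a c4 C1 C2 C3 V0 s q E D c5 : ℝ} (ha : 0 < a) (hc4 : 0 < c4) (hC1 : 0 < C1) (hC2 : 0 < C2) (hC3 : 0 < C3)
    (hV0 : 1 ≤ V0) (hcont : ContinuousOn (RR a) (Set.Ici V0))
    (hre : ∀ v : ℝ, V0 ≤ v → ‖((RR a v : ℝ) : ℂ) - (gam (2 + I * v) / ((‖gam (2 + I * v)‖ : ℝ) : ℂ)) *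
      ((Real.exp (9 / (16 * a)) : ℝ) : ℂ) * DD a (lamv a v) v‖ ≤ C1 / v)
    (hdif : ∀ lam lam' v : ℝ, 1 ≤ lam → 1 ≤ lam' → |lam - lam'| ≤ 1 →
      ‖DD a lam v‖ ≤ C2 * Real.exp (-lam) ∧ ‖DD a lam v - DD a lam' v‖ ≤ C2 * |lam - lam'| * Real.exp (-lam))
    (hmsq : ∀ lam : ℝ, 1 ≤ lam → ∀ c : ℕ → ℂ, Maj a lam c → ∀ V H : ℝ, 0 ≤ H →
      |(∫ v in V..(V + H), ‖DS c v‖ ^ 2) - H * ∑' n : ℕ, ‖c n‖ ^ 2| ≤ C3 * (1 + lam) * Real.exp (-(2 * lam)))
    (hsm : ∀ lam : ℝ, 1 ≤ lam → Summable (fun n : ℕ => amp a lam (n + 1)))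
    (hsq : ∀ lam : ℝ, 1 ≤ lam → c4 * Real.exp (-(3 * lam)) ≤ ∑' n : ℕ, (amp a lam (n + 1)) ^ 2)
    (hq : q = Real.exp (-(3 / (4 * a))) * √(2 * Real.pi)) (hE : E = Real.exp (9 / (16 * a))) (hD : D = C1 + E * C2 * q)
    (hc5 : c5 = c4 * q ^ 3 / 32) (hs1 : 1 ≤ s) (hs2 : 2 ≤ Real.log s) (hs3 : V0 ≤ s ^ 6)
    (hs4 : C3 * (2 + 3 / (4 * a) + 3 * Real.log s) * q ^ 2 + D ^ 2 ≤ c5 * s) {V H : ℝ} (hVl : s ^ 6 ≤ V) (hVu : V ≤ 2 * s ^ 6)
    (hHl : s ^ 4 / 2 ≤ H) (hHu : H ≤ s ^ 4) : c5 * H / s ^ 9 ≤ ∫ v in V..(V + H), (RR a v) ^ 2 := by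
  have hs0 : 0 < s := by linarith
  have hV00 : 0 < V := lt_of_lt_of_le (by positivity) hVl
  have hH0 : 0 < H := lt_of_lt_of_le (by positivity) hHl
  have hq0 : 0 < q := by rw [hq]; positivity
  have hE1 : 1 ≤ E := by rw [hE]; exact Real.one_le_exp (by positivity)
  have hD0 : 0 < D := by rw [hD]; positivity
  obtain ⟨lam, hlam⟩ : ∃ lam, lam = lamv a V := ⟨_, rfl⟩
  have hl1 : 1 ≤ lam := by rw [hlam]; exact lamv_ge ha hs2 hs0 hVl
  have hl2 : 1 + lam ≤ 2 + 3 / (4 * a) + 3 * Real.log s := by rw [hlam]; exact lamv_le hs0 hV00 hVu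
  obtain ⟨B, hB⟩ : ∃ B, B = 2 + 3 / (4 * a) + 3 * Real.log s := ⟨_, rfl⟩
  rw [← hB] at hl2 hs4
  have hex : Real.exp (-lam) = q / √V := by rw [hlam, exp_lamv hV00, hq]
  have hsqV1 : s ^ 3 ≤ √V := by
    apply Real.le_sqrt_of_sq_le
    calc (s ^ 3) ^ 2 = s ^ 6 := by ring
      _ ≤ V := hVl
  have hsqV2 : √V ≤ 2 * s ^ 3 := by
    rw [Real.sqrt_le_left (by positivity)]
    calc V ≤ 2 * s ^ 6 := hVu
      _ ≤ (2 * s ^ 3) ^ 2 := by nlinarith [show (0 : ℝ) ≤ s ^ 6 by positivity]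
  have hex1 : Real.exp (-lam) ≤ q / s ^ 3 := by
    rw [hex]
    exact div_le_div_of_nonneg_left hq0.le (by positivity) hsqV1
  have hex2 : q / (2 * s ^ 3) ≤ Real.exp (-lam) := by
    rw [hex]
    exact div_le_div_of_nonneg_left hq0.le (Real.sqrt_pos.2 hV00) hsqV2
  have hex3 : q ^ 3 / (8 * s ^ 9) ≤ Real.exp (-(3 * lam)) := by
    have h := pow_le_pow_left₀ (by positivity) hex2 3
    rw [← Real.exp_nat_mul] at h
    have e1 : ((3 : ℕ) : ℝ) * -lam = -(3 * lam) := by push_cast; ring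
    have e2 : (q / (2 * s ^ 3)) ^ 3 = q ^ 3 / (8 * s ^ 9) := by
      rw [div_pow]; congr 1; ring
    rwa [e1, e2] at h
  have hex4 : Real.exp (-(2 * lam)) ≤ q ^ 2 / s ^ 6 := by
    have h := pow_le_pow_left₀ (Real.exp_nonneg _) hex1 2
    rw [← Real.exp_nat_mul] at h
    have e1 : ((2 : ℕ) : ℝ) * -lam = -(2 * lam) := by push_cast; ring
    have e2 : (q / s ^ 3) ^ 2 = q ^ 2 / s ^ 6 := by
      rw [div_pow]; congr 1; ring
    rwa [e1, e2] at h
  -- pointwise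
  have hpt : ∀ v ∈ Set.Icc V (V + H), ‖DD a lam v‖ ^ 2 / 2 - (D / s ^ 5) ^ 2 ≤ (RR a v) ^ 2 := by
    intro v hv
    have hvV : V0 ≤ v := by linarith [hv.1]
    have hv0 : 0 < v := lt_of_lt_of_le hV00 hv.1
    have h1 := hre v hvV
    have hW : ‖gam (2 + I * v) / ((‖gam (2 + I * v)‖ : ℝ) : ℂ)‖ = 1 := by
      rw [norm_div, Complex.norm_real, norm_norm, div_self (norm_ne_zero_iff.2 (gam_ne v))]
    have hEn : ‖((Real.exp (9 / (16 * a)) : ℝ) : ℂ)‖ = E := by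
      rw [Complex.norm_real, Real.norm_eq_abs, abs_of_pos (Real.exp_pos _), hE]
    have h2 : E * ‖DD a (lamv a v) v‖ ≤ |RR a v| + C1 / v := by
      have h3 := norm_sub_norm_le ((gam (2 + I * v) / ((‖gam (2 + I * v)‖ : ℝ) : ℂ)) *
        ((Real.exp (9 / (16 * a)) : ℝ) : ℂ) * DD a (lamv a v) v) ((RR a v : ℝ) : ℂ)
      rw [norm_sub_rev, norm_mul, norm_mul, hW, hEn, one_mul, Complex.norm_real, Real.norm_eq_abs] at h3
      linarith
    have hl' : 1 ≤ lamv a v := lamv_ge ha hs2 hs0 (hVl.trans hv.1)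
    have hld : |lam - lamv a v| ≤ 1 / (2 * s ^ 2) := by
      rw [hlam]
      refine (lam_dif hV00 hv.1).trans ?_
      rw [div_le_div_iff₀ (by positivity) (by positivity)]
      have h4 : (v - V) * s ^ 2 ≤ s ^ 4 * s ^ 2 := mul_le_mul_of_nonneg_right (by linarith [hv.2]) (by positivity)
      have h5 : s ^ 4 * s ^ 2 = s ^ 6 := by ring
      linarith
    have hld1 : |lam - lamv a v| ≤ 1 := by
      refine hld.trans ?_
      rw [div_le_one (by positivity)]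
      nlinarith
    have h6 := (hdif lam (lamv a v) v hl1 hl' hld1).2
    have h7 : ‖DD a lam v‖ ≤ ‖DD a (lamv a v) v‖ + C2 * (1 / (2 * s ^ 2)) * (q / s ^ 3) := by
      have h8 := norm_sub_norm_le (DD a lam v) (DD a (lamv a v) v)
      have h9 : C2 * |lam - lamv a v| * Real.exp (-lam) ≤ C2 * (1 / (2 * s ^ 2)) * (q / s ^ 3) :=
        mul_le_mul (mul_le_mul_of_nonneg_left hld hC2.le) hex1 (Real.exp_nonneg _) (by positivity)
      linarith
    have h10 : E * ‖DD a lam v‖ ≤ |RR a v| + D / s ^ 5 := by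
      have h11 : C1 / v ≤ C1 / s ^ 5 := by
        apply div_le_div_of_nonneg_left hC1.le (by positivity)
        calc s ^ 5 ≤ s ^ 6 := pow_le_pow_right₀ hs1 (by norm_num)
          _ ≤ v := hVl.trans hv.1
      have h12 : C2 * (1 / (2 * s ^ 2)) * (q / s ^ 3) ≤ C2 * q / s ^ 5 := by
        have e : C2 * (1 / (2 * s ^ 2)) * (q / s ^ 3) = C2 * q / s ^ 5 / 2 := by
          field_simp
        rw [e]
        have : 0 ≤ C2 * q / s ^ 5 := by positivity
        linarith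
      have h13 : E * ‖DD a lam v‖ ≤ E * (‖DD a (lamv a v) v‖ + C2 * q / s ^ 5) :=
        mul_le_mul_of_nonneg_left (h7.trans (by linarith)) (by linarith)
      have e : D / s ^ 5 = C1 / s ^ 5 + E * (C2 * q / s ^ 5) := by rw [hD]; ring
      rw [e]
      linarith
    exact ptw h10 (by positivity) (le_mul_of_one_le_left (norm_nonneg _) hE1) (norm_nonneg _)
  -- integrals
  have hVH : V ≤ V + H := by linarith
  have hDDc : Continuous (fun v => ‖DD a lam v‖ ^ 2) := (DD_cont (hsm lam hl1)).norm.pow 2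
  have hi1 : IntervalIntegrable (fun v => ‖DD a lam v‖ ^ 2 / 2 - (D / s ^ 5) ^ 2) volume V (V + H) :=
    ((hDDc.div_const 2).sub continuous_const).intervalIntegrable _ _
  have hi2 : IntervalIntegrable (fun v => (RR a v) ^ 2) volume V (V + H) := by
    apply ContinuousOn.intervalIntegrable
    rw [Set.uIcc_of_le hVH]
    exact (hcont.pow 2).mono (fun v hv => (hs3.trans hVl).trans hv.1)
  have h14 := intervalIntegral.integral_mono_on hVH hi1 hi2 hpt
  rw [intervalIntegral.integral_sub ((hDDc.div_const 2).intervalIntegrable _ _) (continuous_const.intervalIntegrable _ _),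
    intervalIntegral.integral_div, intervalIntegral.integral_const, smul_eq_mul, add_sub_cancel_left] at h14
  have h15 : ∫ v in V..(V + H), ‖DS (cc a lam) v‖ ^ 2 ≤ ∫ v in V..(V + H), ‖DD a lam v‖ ^ 2 := by
    apply intervalIntegral.integral_mono_on hVH
    · exact ((DS_cont (hsm lam hl1)).norm.pow 2).intervalIntegrable _ _
    · exact hDDc.intervalIntegrable _ _
    · intro v _
      rw [DD_cc, norm_mul, Complex.norm_real, Real.norm_eq_abs, abs_of_pos (Real.exp_pos _), mul_pow]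
      exact le_mul_of_one_le_left (by positivity) (one_le_pow₀ (Real.one_le_exp (by positivity)))
  have h16 := hmsq lam hl1 (cc a lam) (cc_maj a lam) V H hH0.le
  have h17 := hsq lam hl1
  simp only [cc_norm] at h16
  rw [abs_le] at h16
  have h18 : H * (c4 * (q ^ 3 / (8 * s ^ 9))) ≤ H * ∑' n : ℕ, (amp a lam (n + 1)) ^ 2 := by
    apply mul_le_mul_of_nonneg_left _ hH0.le
    exact (mul_le_mul_of_nonneg_left hex3 hc4.le).trans h17
  have hB0 : 0 ≤ B := by linarith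
  have h19 : C3 * (1 + lam) * Real.exp (-(2 * lam)) ≤ C3 * B * (q ^ 2 / s ^ 6) :=
    mul_le_mul (mul_le_mul_of_nonneg_left hl2 hC3.le) hex4 (Real.exp_nonneg _) (by positivity)
  have h20 : (H * (c4 * (q ^ 3 / (8 * s ^ 9))) - C3 * B * (q ^ 2 / s ^ 6)) / 2 - H * (D / s ^ 5) ^ 2 ≤
      ∫ v in V..(V + H), (RR a v) ^ 2 := by linarith [h16.1]
  refine le_trans ?_ h20
  have e1 : c5 * H / s ^ 9 = (c5 * H * s) / s ^ 10 := by field_simp
  have e2 : (H * (c4 * (q ^ 3 / (8 * s ^ 9))) - C3 * B * (q ^ 2 / s ^ 6)) / 2 - H * (D / s ^ 5) ^ 2 =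
      ((H * c4 * q ^ 3 * s / 8 - C3 * B * q ^ 2 * s ^ 4) / 2 - H * D ^ 2) / s ^ 10 := by field_simp
  rw [e1, e2]
  apply div_le_div_of_nonneg_right _ (by positivity)
  have h21 : C3 * B * q ^ 2 * s ^ 4 ≤ C3 * B * q ^ 2 * (2 * H) := mul_le_mul_of_nonneg_left (by linarith) (by positivity)
  have h22 : (C3 * B * q ^ 2 + D ^ 2) * H ≤ c5 * s * H := mul_le_mul_of_nonneg_right hs4 hH0.le
  have e3 : H * c4 * q ^ 3 * s / 8 / 2 = 2 * (c5 * s * H) := by rw [hc5]; ring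
  have e4 : (H * c4 * q ^ 3 * s / 8 - C3 * B * q ^ 2 * s ^ 4) / 2 = H * c4 * q ^ 3 * s / 8 / 2 - C3 * B * q ^ 2 * s ^ 4 / 2 := by ring
  rw [e4, e3]
  linarith

theorem t_R1 : S_R1' := by
  intro hSUM hMSQ hDIF hRE a ha
  obtain ⟨c4, C4, hc4, -, hsum⟩ := hSUM a 1 ha one_pos
  obtain ⟨C3, hC3, hmsq⟩ := hMSQ a ha
  obtain ⟨C2, hC2, hdif⟩ := hDIF a ha
  obtain ⟨C1, V0, hC1, hV0, hcont, -, hre⟩ := hRE a ha
  obtain ⟨q, hq⟩ : ∃ q, q = Real.exp (-(3 / (4 * a))) * √(2 * Real.pi) := ⟨_, rfl⟩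
  obtain ⟨E, hE⟩ : ∃ E, E = Real.exp (9 / (16 * a)) := ⟨_, rfl⟩
  obtain ⟨D, hD⟩ : ∃ D, D = C1 + E * C2 * q := ⟨_, rfl⟩
  obtain ⟨c5, hc5⟩ : ∃ c5, c5 = c4 * q ^ 3 / 32 := ⟨_, rfl⟩
  have hq0 : 0 < q := by rw [hq]; positivity
  have hc50 : 0 < c5 := by rw [hc5]; positivity
  have hev : ∀ᶠ s : ℝ in atTop, 1 ≤ s ∧ 2 ≤ Real.log s ∧ V0 ≤ s ^ 6 ∧
      C3 * (2 + 3 / (4 * a) + 3 * Real.log s) * q ^ 2 + D ^ 2 ≤ c5 * s := by
    have h1 : Tendsto (fun s : ℝ => s ^ 6) atTop atTop := tendsto_pow_atTop (by norm_num)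
    have h2 : Tendsto (fun s : ℝ => (C3 * (2 + 3 / (4 * a)) * q ^ 2 + D ^ 2) / s + 3 * C3 * q ^ 2 * (Real.log s / s)) atTop (𝓝 0) := by
      have h3 : Tendsto (fun s : ℝ => (C3 * (2 + 3 / (4 * a)) * q ^ 2 + D ^ 2) / s) atTop (𝓝 0) :=
        tendsto_const_nhds.div_atTop tendsto_id
      have h4 : Tendsto (fun s : ℝ => Real.log s / s) atTop (𝓝 0) := Real.isLittleO_log_id_atTop.tendsto_div_nhds_zero
      have h5 := h3.add (h4.const_mul (3 * C3 * q ^ 2))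
      simpa using h5
    filter_upwards [eventually_ge_atTop 1, Real.tendsto_log_atTop.eventually_ge_atTop 2, h1.eventually_ge_atTop V0,
      h2.eventually_le_const hc50] with s a1 a2 a3 a4
    refine ⟨a1, a2, a3, ?_⟩
    have hs0 : 0 < s := by linarith
    have e : (C3 * (2 + 3 / (4 * a)) * q ^ 2 + D ^ 2) / s + 3 * C3 * q ^ 2 * (Real.log s / s) =
        (C3 * (2 + 3 / (4 * a) + 3 * Real.log s) * q ^ 2 + D ^ 2) / s := by
      field_simp
      ring
    rw [e, div_le_iff₀ hs0] at a4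
    exact a4
  have hev2 := (tendsto_rpow_atTop (show (0 : ℝ) < 1 / 6 by norm_num)).eventually hev
  obtain ⟨T₁, hT₁⟩ := eventually_atTop.1 hev2
  refine ⟨c5, max 2 T₁, hc50, le_max_left _ _, fun T hT => ?_⟩
  obtain ⟨hs1, hs2, hs3, hs4⟩ := hT₁ T ((le_max_right _ _).trans hT)
  have hT0 : 0 < T := by linarith [(le_max_left 2 T₁).trans hT]
  obtain ⟨s, hs⟩ : ∃ s, s = T ^ (1 / 6 : ℝ) := ⟨_, rfl⟩
  rw [← hs] at hs1 hs2 hs3 hs4
  have hs0 : 0 < s := by linarith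
  have hsT : s ^ 6 = T := by
    rw [hs, ← Real.rpow_natCast, ← Real.rpow_mul hT0.le]
    norm_num
  have hT3 : T ^ (-(1 / 2 : ℝ)) = 1 / s ^ 3 := by
    rw [Real.rpow_neg hT0.le, one_div (s ^ 3)]
    congr 1
    rw [hs, ← Real.rpow_natCast, ← Real.rpow_mul hT0.le]
    norm_num
  obtain ⟨n, hn⟩ : ∃ n : ℕ, n = ⌈s ^ 2⌉₊ := ⟨_, rfl⟩
  have hn1 : s ^ 2 ≤ n := by rw [hn]; exact Nat.le_ceil _
  have hn2 : (n : ℝ) ≤ 2 * s ^ 2 := by
    have h1 := Nat.ceil_lt_add_one (show (0 : ℝ) ≤ s ^ 2 by positivity)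
    rw [← hn] at h1
    nlinarith
  have hn0 : (0 : ℝ) < n := lt_of_lt_of_le (by positivity) hn1
  obtain ⟨H, hH⟩ : ∃ H : ℝ, H = s ^ 6 / n := ⟨_, rfl⟩
  have hHl : s ^ 4 / 2 ≤ H := by
    rw [hH, le_div_iff₀ hn0]
    calc s ^ 4 / 2 * n ≤ s ^ 4 / 2 * (2 * s ^ 2) := mul_le_mul_of_nonneg_left hn2 (by positivity)
      _ = s ^ 6 := by ring
  have hHu : H ≤ s ^ 4 := by
    rw [hH, div_le_iff₀ hn0]
    calc s ^ 6 = s ^ 4 * s ^ 2 := by ring
      _ ≤ s ^ 4 * n := mul_le_mul_of_nonneg_left hn1 (by positivity)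
  have hH0 : 0 < H := lt_of_lt_of_le (by positivity) hHl
  have hnH : (n : ℝ) * H = s ^ 6 := by rw [hH]; field_simp
  have hcov : ∫ v in T..(2 * T), (RR a v) ^ 2 = ∑ k ∈ Finset.range n, ∫ v in (T + k * H)..(T + k * H + H), (RR a v) ^ 2 := by
    have h1 := intervalIntegral.sum_integral_adjacent_intervals (f := fun v => (RR a v) ^ 2) (μ := volume)
      (a := fun k : ℕ => T + k * H) (n := n) (fun k _ => by
        apply ContinuousOn.intervalIntegrable
        rw [Set.uIcc_of_le (by push_cast; nlinarith)]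
        refine (hcont.pow 2).mono (fun v hv => ?_)
        have h2 : T ≤ v := by
          have h3 : (0 : ℝ) ≤ k * H := by positivity
          linarith [hv.1]
        exact (hs3.trans hsT.le).trans h2)
    have e1 : T + ((0 : ℕ) : ℝ) * H = T := by simp
    have e2 : T + (n : ℝ) * H = 2 * T := by rw [hnH, hsT]; ring
    simp only [e1, e2] at h1
    rw [← h1]
    apply Finset.sum_congr rfl
    intro k _
    congr 1
    push_cast
    ring
  rw [hcov, hT3]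
  have h1 : ∀ k ∈ Finset.range n, c5 * H / s ^ 9 ≤ ∫ v in (T + k * H)..(T + k * H + H), (RR a v) ^ 2 := by
    intro k hk
    have hk' : (k : ℝ) ≤ n := by exact_mod_cast (Finset.mem_range.1 hk).le
    have hkH : (k : ℝ) * H ≤ s ^ 6 := by
      rw [← hnH]
      exact mul_le_mul_of_nonneg_right hk' hH0.le
    have hkH0 : (0 : ℝ) ≤ k * H := by positivity
    exact piece ha hc4 hC1 hC2 hC3 hV0 hcont hre hdif hmsq (fun lam hl => (hsum lam hl).1)
      (fun lam hl => (hsum lam hl).2.2.2.2.1) hq hE hD hc5 hs1 hs2 hs3 hs4 (by linarith) (by linarith) hHl hHu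
  have h2 := Finset.sum_le_sum h1
  refine le_trans (le_of_eq ?_) h2
  rw [Finset.sum_const, Finset.card_range, nsmul_eq_mul]
  have e : (n : ℝ) * (c5 * H / s ^ 9) = c5 * (n * H) / s ^ 9 := by ring
  rw [e, hnH]
  field_simp

end Pool.Agent.J4H55.RZ
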